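import Mathlib

/-!
# Attaching a null family of compact sets to a metric space

`C` is a metric space, `P j` are subsets of a metric space `M` with base points `s j ∈ P j`, and
`P j` is attached to `C` by gluing `s j` to `r j`. The result is the metric space `Wd P s r`.
-/

set_option autoImplicit false

open Set Topology

namespace Pool.Agent.Q172.KT

section

variable {C M J : Type}

/-- `C` with `P j` attached at `r j`: the points are the points of `C` and the pairs `(j, x)` with
`x ∈ P j`, `x ≠ s j`. -/
def Wd (P : J → Set M) (s : J → M) (_r : J → C) : Type :=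
  C ⊕ {z : J × M // z.2 ∈ P z.1 ∧ z.2 ≠ s z.1}

variable {P : J → Set M} {s : J → M} {r : J → C}

/-- A point of `C`. -/
def Wd.core (x : C) : Wd P s r := Sum.inl x

/-- A point of the piece number `j`. -/
def Wd.pc (j : J) (x : M) (h : x ∈ P j) (h' : x ≠ s j) : Wd P s r := Sum.inr ⟨(j, x), h, h'⟩

theorem Wd.cases (w : Wd P s r) :
    (∃ x, w = Wd.core x) ∨ ∃ (j : J) (x : M) (h : x ∈ P j) (h' : x ≠ s j), w = Wd.pc j x h h' := by
  rcases w with x | ⟨⟨j, x⟩, h, h'⟩
  · exact Or.inl ⟨x, rfl⟩
  · exact Or.inr ⟨j, x, h, h', rfl⟩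

/-- The retraction onto `C`: a piece is sent to the point where it is attached. -/
def rho (w : Wd P s r) : C := Sum.elim (fun x => x) (fun z => r z.1.1) w

@[simp] theorem rho_core (x : C) : rho (Wd.core x : Wd P s r) = x := rfl

@[simp] theorem rho_pc (j : J) (x : M) (h : x ∈ P j) (h' : x ≠ s j) :
    rho (Wd.pc j x h h' : Wd P s r) = r j := rfl

variable [MetricSpace M]

/-- The distance to the base point inside the piece (`0` on `C`). -/
noncomputable def ht (w : Wd P s r) : ℝ := Sum.elim (fun _ => 0) (fun z => dist z.1.2 (s z.1.1)) w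

@[simp] theorem ht_core (x : C) : ht (Wd.core x : Wd P s r) = 0 := rfl

@[simp] theorem ht_pc (j : J) (x : M) (h : x ∈ P j) (h' : x ≠ s j) :
    ht (Wd.pc j x h h' : Wd P s r) = dist x (s j) := rfl

theorem ht_nonneg (w : Wd P s r) : 0 ≤ ht w := by
  rcases w.cases with ⟨x, rfl⟩ | ⟨j, x, h, h', rfl⟩
  · simp
  · simp

variable [MetricSpace C]

open Classical in
/-- The distance. -/
noncomputable def wdist (w w' : Wd P s r) : ℝ :=
  match w, w' with
  | Sum.inr z, Sum.inr z' =>
    if z.1.1 = z'.1.1 then dist z.1.2 z'.1.2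
    else dist z.1.2 (s z.1.1) + dist (r z.1.1) (r z'.1.1) + dist z'.1.2 (s z'.1.1)
  | Sum.inl x, Sum.inl y => dist x y
  | Sum.inl x, Sum.inr z => dist x (r z.1.1) + dist z.1.2 (s z.1.1)
  | Sum.inr z, Sum.inl x => dist z.1.2 (s z.1.1) + dist (r z.1.1) x

theorem wdist_core (x y : C) : wdist (Wd.core x : Wd P s r) (Wd.core y) = dist x y := rfl

theorem wdist_core_pc (x : C) (j : J) (y : M) (h : y ∈ P j) (h' : y ≠ s j) :
    wdist (Wd.core x : Wd P s r) (Wd.pc j y h h') = dist x (r j) + dist y (s j) := rfl

theorem wdist_pc_core (x : C) (j : J) (y : M) (h : y ∈ P j) (h' : y ≠ s j) :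
    wdist (Wd.pc j y h h' : Wd P s r) (Wd.core x) = dist y (s j) + dist (r j) x := rfl

open Classical in
theorem wdist_pc_same (j : J) (x y : M) (h : x ∈ P j) (h' : x ≠ s j) (g : y ∈ P j)
    (g' : y ≠ s j) : wdist (Wd.pc j x h h' : Wd P s r) (Wd.pc j y g g') = dist x y := by
  change (if j = j then dist x y else _) = dist x y
  rw [if_pos rfl]

open Classical in
theorem wdist_pc_ne {i j : J} (hij : i ≠ j) (x y : M) (h : x ∈ P i) (h' : x ≠ s i) (g : y ∈ P j)
    (g' : y ≠ s j) : wdist (Wd.pc i x h h' : Wd P s r) (Wd.pc j y g g') =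
      dist x (s i) + dist (r i) (r j) + dist y (s j) := by
  change (if i = j then dist x y else dist x (s i) + dist (r i) (r j) + dist y (s j)) = _
  rw [if_neg hij]

theorem wdist_self (w : Wd P s r) : wdist w w = 0 := by
  rcases w.cases with ⟨x, rfl⟩ | ⟨j, x, h, h', rfl⟩
  · rw [wdist_core, dist_self]
  · rw [wdist_pc_same, dist_self]

theorem wdist_comm (w w' : Wd P s r) : wdist w w' = wdist w' w := by
  rcases w.cases with ⟨x, rfl⟩ | ⟨i, x, h, h', rfl⟩ <;>
  rcases w'.cases with ⟨y, rfl⟩ | ⟨j, y, g, g', rfl⟩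
  · rw [wdist_core, wdist_core, dist_comm]
  · rw [wdist_core_pc, wdist_pc_core, dist_comm x, add_comm]
  · rw [wdist_core_pc, wdist_pc_core, dist_comm (r i), add_comm]
  · by_cases hij : i = j
    · subst hij
      rw [wdist_pc_same, wdist_pc_same, dist_comm]
    · rw [wdist_pc_ne hij, wdist_pc_ne (Ne.symm hij), dist_comm (r i)]
      ring

theorem wdist_le (w w' : Wd P s r) : wdist w w' ≤ ht w + dist (rho w) (rho w') + ht w' := by
  rcases w.cases with ⟨x, rfl⟩ | ⟨i, x, h, h', rfl⟩ <;>
  rcases w'.cases with ⟨y, rfl⟩ | ⟨j, y, g, g', rfl⟩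
  · rw [wdist_core]; simp
  · rw [wdist_core_pc]; simp
  · rw [wdist_pc_core]; simp
  · by_cases hij : i = j
    · subst hij
      rw [wdist_pc_same]
      simp only [ht_pc, rho_pc, dist_self, add_zero]
      exact dist_triangle_right x y (s i)
    · rw [wdist_pc_ne hij]; simp

theorem ht_le_wdist (w w' : Wd P s r) : ht w ≤ wdist w w' + ht w' := by
  rcases w.cases with ⟨x, rfl⟩ | ⟨i, x, h, h', rfl⟩ <;>
  rcases w'.cases with ⟨y, rfl⟩ | ⟨j, y, g, g', rfl⟩
  · rw [wdist_core]; simp
  · rw [wdist_core_pc]; simp; positivity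
  · rw [wdist_pc_core]; simp
  · by_cases hij : i = j
    · subst hij
      rw [wdist_pc_same]
      exact dist_triangle _ _ _
    · rw [wdist_pc_ne hij]
      simp only [ht_pc]
      have := dist_nonneg (x := r i) (y := r j)
      have := dist_nonneg (x := y) (y := s j)
      linarith

theorem rho_le_wdist (w w' : Wd P s r) : dist (rho w) (rho w') ≤ wdist w w' := by
  rcases w.cases with ⟨x, rfl⟩ | ⟨i, x, h, h', rfl⟩ <;>
  rcases w'.cases with ⟨y, rfl⟩ | ⟨j, y, g, g', rfl⟩
  · rw [wdist_core]; simp
  · rw [wdist_core_pc]; simp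
  · rw [wdist_pc_core]; simp
  · by_cases hij : i = j
    · subst hij
      simp only [rho_pc, dist_self]
      rw [wdist_pc_same]; exact dist_nonneg
    · rw [wdist_pc_ne hij]
      simp only [rho_pc]
      have := dist_nonneg (x := x) (y := s i)
      have := dist_nonneg (x := y) (y := s j)
      linarith

/-- `w` and `w'` lie in the same piece. -/
def Same (w w' : Wd P s r) : Prop := ∃ (j : J) (x y : M) (h : x ∈ P j) (h' : x ≠ s j)
  (g : y ∈ P j) (g' : y ≠ s j), w = Wd.pc j x h h' ∧ w' = Wd.pc j y g g'

theorem wdist_of_not_same {w w' : Wd P s r} (hn : ¬ Same w w') :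
    wdist w w' = ht w + dist (rho w) (rho w') + ht w' := by
  rcases w.cases with ⟨x, rfl⟩ | ⟨i, x, h, h', rfl⟩ <;>
  rcases w'.cases with ⟨y, rfl⟩ | ⟨j, y, g, g', rfl⟩
  · rw [wdist_core]; simp
  · rw [wdist_core_pc]; simp
  · rw [wdist_pc_core]; simp
  · by_cases hij : i = j
    · subst hij
      exact absurd ⟨i, x, y, h, h', g, g', rfl, rfl⟩ hn
    · rw [wdist_pc_ne hij]; simp

theorem wdist_triangle (a b c : Wd P s r) : wdist a c ≤ wdist a b + wdist b c := by
  by_cases hac : Same a c
  · obtain ⟨j, x, z, h, h', g, g', rfl, rfl⟩ := hac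
    by_cases hb : Same (Wd.pc j x h h') b
    · obtain ⟨j', x', y, k, k', l, l', he, rfl⟩ := hb
      have hj : j = j' := by
        have := congrArg (fun w : Wd P s r => Sum.elim (fun _ => j) (fun z => z.1.1) w) he
        exact this
      subst hj
      rw [wdist_pc_same, wdist_pc_same, wdist_pc_same]
      exact dist_triangle _ _ _
    · have h1 := wdist_of_not_same hb
      have h2 : ¬ Same b (Wd.pc j z g g') := by
        rintro ⟨j', y, z', k, k', l, l', rfl, he⟩
        have hj : j = j' := by
          have := congrArg (fun w : Wd P s r => Sum.elim (fun _ => j) (fun z => z.1.1) w) he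
          exact this
        subst hj
        exact hb ⟨j, x, y, h, h', k, k', rfl, rfl⟩
      have h3 := wdist_of_not_same h2
      rw [h1, h3, wdist_pc_same]
      simp only [ht_pc, rho_pc]
      have h4 := dist_triangle_right x z (s j)
      have h5 := dist_nonneg (x := r j) (y := rho b)
      have h6 := dist_nonneg (x := rho b) (y := r j)
      have h7 := ht_nonneg b
      linarith
  · rw [wdist_of_not_same hac]
    by_cases hab : Same a b
    · obtain ⟨j, x, y, h, h', g, g', rfl, rfl⟩ := hab
      have hbc : ¬ Same (Wd.pc j y g g') c := by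
        rintro ⟨j', y', z', k, k', l, l', he, rfl⟩
        have hj : j = j' := by
          have := congrArg (fun w : Wd P s r => Sum.elim (fun _ => j) (fun z => z.1.1) w) he
          exact this
        subst hj
        exact hac ⟨j, x, z', h, h', l, l', rfl, rfl⟩
      rw [wdist_of_not_same hbc, wdist_pc_same]
      simp only [ht_pc, rho_pc]
      have := dist_triangle x y (s j)
      linarith
    · rw [wdist_of_not_same hab]
      by_cases hbc : Same b c
      · obtain ⟨j, x, y, h, h', g, g', rfl, rfl⟩ := hbc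
        rw [wdist_pc_same]
        simp only [ht_pc, rho_pc]
        have h1 := dist_triangle y x (s j)
        rw [dist_comm y x] at h1
        linarith
      · rw [wdist_of_not_same hbc]
        have h1 := dist_triangle (rho a) (rho b) (rho c)
        have h2 := ht_nonneg b
        linarith

theorem eq_of_wdist {w w' : Wd P s r} (h : wdist w w' = 0) : w = w' := by
  rcases w.cases with ⟨x, rfl⟩ | ⟨i, x, hx, hx', rfl⟩ <;>
  rcases w'.cases with ⟨y, rfl⟩ | ⟨j, y, hy, hy', rfl⟩
  · rw [wdist_core, dist_eq_zero] at h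
    rw [h]
  · rw [wdist_core_pc] at h
    have h1 := dist_nonneg (x := x) (y := r j)
    have h2 := dist_pos.2 hy'
    linarith
  · rw [wdist_pc_core] at h
    have h1 := dist_nonneg (x := r i) (y := y)
    have h2 := dist_pos.2 hx'
    linarith
  · by_cases hij : i = j
    · subst hij
      rw [wdist_pc_same, dist_eq_zero] at h
      subst h
      rfl
    · rw [wdist_pc_ne hij] at h
      have h1 := dist_nonneg (x := r i) (y := r j)
      have h2 := dist_pos.2 hx'
      have h3 := dist_pos.2 hy'
      linarith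

noncomputable instance : MetricSpace (Wd P s r) where
  dist := wdist
  dist_self := wdist_self
  dist_comm := wdist_comm
  dist_triangle := wdist_triangle
  eq_of_dist_eq_zero := eq_of_wdist

theorem dist_def (w w' : Wd P s r) : dist w w' = wdist w w' := rfl

theorem rho_lipschitz : LipschitzWith 1 (rho : Wd P s r → C) :=
  LipschitzWith.of_dist_le_mul fun w w' => by
    rw [NNReal.coe_one, one_mul]; exact rho_le_wdist w w'

theorem continuous_rho : Continuous (rho : Wd P s r → C) := rho_lipschitz.continuous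

theorem isometry_core : Isometry (Wd.core : C → Wd P s r) :=
  Isometry.of_dist_eq fun _ _ => rfl

end

end Pool.Agent.Q172.KT
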