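import Pool.Agent.Q172.KT.Conn

/-!
# Compactness of the glued space, no simple closed curves, local connectedness
-/

set_option autoImplicit false
set_option linter.unusedSectionVars false

open Set Topology

namespace Pool.Agent.Q172.KT

/-- Compactness. -/
theorem compactS : S_compact := by
  intro C M J _ _ _ P s r hP
  refine ⟨isCompact_iff_ultrafilter_le_nhds.2 fun U _ => ?_⟩
  have hpc : ∀ j, IsCompact (range (emb P s r j)) := fun j => by
    have : CompactSpace (P j) := isCompact_iff_compactSpace.1 (hP.compact j)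
    exact isCompact_range (isometry_emb j).continuous
  by_cases h : ∃ j, range (emb P s r j) ∈ U
  · obtain ⟨j, hj⟩ := h
    obtain ⟨x, -, hx⟩ := (isCompact_iff_ultrafilter_le_nhds.1 (hpc j)) U
      (Filter.le_principal_iff.2 hj)
    exact ⟨x, mem_univ _, hx⟩
  push Not at h
  obtain ⟨c, -, hc⟩ := (isCompact_iff_ultrafilter_le_nhds.1 (isCompact_univ (X := C)))
    (U.map rho) (by simp)
  refine ⟨Wd.core c, mem_univ _, ?_⟩
  rw [Metric.nhds_basis_ball.ge_iff]
  intro ε hε
  have h1 : {w : Wd P s r | dist (rho w) c < ε / 2} ∈ U := by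
    have : Metric.ball c (ε / 2) ∈ U.map rho := hc (Metric.ball_mem_nhds c (by positivity))
    exact this
  have h2 : {w : Wd P s r | ht w < ε / 2} ∈ U := by
    by_contra hn
    rw [← Ultrafilter.compl_mem_iff_notMem] at hn
    have hfin := hP.null (ε / 2) (by positivity)
    have h3 : (⋃ j ∈ {j | ∃ x ∈ P j, ε / 2 ≤ dist x (s j)}, range (emb P s r j)) ∈ U := by
      refine Filter.mem_of_superset hn ?_
      intro w hw
      have hw' : ε / 2 ≤ ht w := not_lt.1 hw
      rcases cases_emb w with ⟨x, rfl⟩ | ⟨j, x, rfl⟩
      · rw [ht_core] at hw'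
        exact absurd hw' (by linarith)
      · rw [ht_emb] at hw'
        exact mem_iUnion₂.2 ⟨j, ⟨x, x.2, hw'⟩, ⟨x, rfl⟩⟩
    obtain ⟨j, -, hj⟩ := (Ultrafilter.finite_biUnion_mem_iff hfin).1 h3
    exact h j hj
  refine Filter.mem_of_superset (Filter.inter_mem h1 h2) ?_
  rintro w ⟨hw1, hw2⟩
  have h4 := wdist_le w (Wd.core c)
  simp only [rho_core, ht_core, add_zero] at h4
  rw [mem_setOf_eq] at hw1 hw2
  change dist w (Wd.core c) < ε
  rw [dist_def]
  linarith

section

variable {C M J : Type} [MetricSpace C] [MetricSpace M] {P : J → Set M} {s : J → M} {r : J → C}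

/-- A point near a point of a piece is in the piece. -/
theorem mem_of_near (j : J) (x : P j) (w : Wd P s r) (h : dist w (emb P s r j x) < dist (x : M) (s j)) :
    ∃ y : P j, (y : M) ≠ s j ∧ w = emb P s r j y := by
  have hne : (x : M) ≠ s j := by
    intro hx
    rw [hx, dist_self] at h
    exact absurd h (not_lt.2 dist_nonneg)
  obtain ⟨x, hx⟩ := x
  rw [emb_of_ne j x hx hne] at h
  have hs : Same w (Wd.pc j x hx hne) := by
    by_contra hn
    have h3 := wdist_of_not_same hn
    rw [dist_def, h3] at h
    simp only [ht_pc, rho_pc] at h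
    have h4 := ht_nonneg w
    have h5 := dist_nonneg (x := rho w) (y := r j)
    linarith
  obtain ⟨j', y, x', k, k', l, l', rfl, he⟩ := hs
  have hj : j = j' := by
    have := congrArg (fun w : Wd P s r => Sum.elim (fun _ => j) (fun z => z.1.1) w) he
    exact this
  subst hj
  exact ⟨⟨y, k⟩, k', (emb_of_ne j y k k').symm⟩

theorem core_eq_emb {j : J} {x : P j} {c : C} (h : (Wd.core c : Wd P s r) = emb P s r j x) :
    (x : M) = s j ∧ c = r j := by
  constructor
  · have h1 := ht_emb (s := s) (r := r) j x
    rw [← h, ht_core] at h1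
    exact (dist_eq_zero.1 h1.symm)
  · have h1 := rho_emb (s := s) (r := r) j x
    rw [← h, rho_core] at h1
    exact h1

/-- The piece without its base point. -/
def opc (P : J → Set M) (s : J → M) (r : J → C) (j : J) : Set (Wd P s r) :=
  {w | ∃ y : P j, (y : M) ≠ s j ∧ w = emb P s r j y}

theorem isOpen_opc (j : J) : IsOpen (opc P s r j) := by
  rw [Metric.isOpen_iff]
  rintro w ⟨x, hx, rfl⟩
  exact ⟨dist (x : M) (s j), dist_pos.2 hx, fun w' hw' => mem_of_near j x w' hw'⟩

theorem opc_union (hP : Pieces P s) (j : J) : opc P s r j ∪ {Wd.core (r j)} = range (emb P s r j) := by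
  ext w
  constructor
  · rintro (⟨x, -, rfl⟩ | h)
    · exact ⟨x, rfl⟩
    · rw [mem_singleton_iff] at h
      rw [h]
      exact ⟨⟨s j, hP.mem j⟩, emb_base j (hP.mem j)⟩
  · rintro ⟨x, rfl⟩
    by_cases hx : (x : M) = s j
    · right
      obtain ⟨x, hx'⟩ := x
      change x = s j at hx
      subst hx
      rw [emb_base]
      rfl
    · exact Or.inl ⟨x, hx, rfl⟩

end

theorem circle_compl (e : Circle) : IsPreconnected ({e}ᶜ : Set Circle) := by
  haveI : Fact (0 < 2 * Real.pi) := ⟨by positivity⟩
  set h := AddCircle.homeomorphCircle' with hh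
  obtain ⟨a, ha⟩ : ∃ a : ℝ, (a : AddCircle (2 * Real.pi)) = h.symm e :=
    QuotientAddGroup.mk_surjective _
  have h1 : IsPreconnected ({(a : AddCircle (2 * Real.pi))}ᶜ : Set (AddCircle (2 * Real.pi))) := by
    have := (AddCircle.openPartialHomeomorphCoe (2 * Real.pi) a).image_source_eq_target
    change _ = {(a : AddCircle (2 * Real.pi))}ᶜ at this
    rw [← this]
    exact isPreconnected_Ioo.image _
      (AddCircle.openPartialHomeomorphCoe (2 * Real.pi) a).continuousOn_toFun
  have h2 : ({e}ᶜ : Set Circle) = h '' {(a : AddCircle (2 * Real.pi))}ᶜ := by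
    rw [ha, image_compl_eq h.bijective, image_singleton, Homeomorph.apply_symm_apply]
  rw [h2]
  exact h1.image _ h.continuous.continuousOn

/-- The circle minus at most one point is preconnected. -/
theorem circle_preimage {X : Type} (γ : Circle → X) (hγ : Function.Injective γ) (c : X) :
    IsPreconnected {z | γ z ≠ c} := by
  by_cases h : ∃ z, γ z = c
  · obtain ⟨e, he⟩ := h
    have : {z | γ z ≠ c} = ({e}ᶜ : Set Circle) := by
      ext z
      rw [mem_setOf_eq, mem_compl_iff, mem_singleton_iff]
      constructor
      · rintro h rfl; exact h he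
      · intro h h'
        exact h (hγ (h'.trans he.symm))
    rw [this]
    exact circle_compl e
  · have : {z | γ z ≠ c} = univ := by
      rw [eq_univ_iff_forall]
      intro z hz
      exact h ⟨z, hz⟩
    rw [this]
    exact isPreconnected_univ

/-- No simple closed curve. -/
theorem circleS : S_circle := by
  intro C M J _ _ P s r hP hC hPj γ hγ hinj
  by_cases h : ∃ z j, γ z ∈ opc P s r j
  · obtain ⟨z, j, hz⟩ := h
    have : CompactSpace (P j) := isCompact_iff_compactSpace.1 (hP.compact j)
    have hcl : IsClosed (range (emb P s r j)) := (isCompact_range (isometry_emb j).continuous).isClosed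
    have hne : ∀ w ∈ opc P s r j, w ≠ Wd.core (r j) := by
      rintro w ⟨y, hy, rfl⟩ h
      exact hy (core_eq_emb h.symm).1
    have hall : ∀ z', γ z' ≠ Wd.core (r j) → γ z' ∈ opc P s r j := by
      have hpre := circle_preimage γ hinj (Wd.core (r j))
      have hsub : {z | γ z ≠ Wd.core (r j)} ⊆ γ ⁻¹' (opc P s r j) := by
        refine hpre.subset_left_of_subset_union ((isOpen_opc j).preimage hγ)
          (hcl.isOpen_compl.preimage hγ) ?_ ?_ ⟨z, hne _ hz, hz⟩
        · rw [Set.disjoint_left]
          intro z' h1 h2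
          apply h2
          rw [← opc_union hP]
          exact Or.inl h1
        · intro z' hz'
          by_cases h3 : γ z' ∈ range (emb P s r j)
          · rw [← opc_union hP] at h3
            rcases h3 with h3 | h3
            · exact Or.inl h3
            · exact absurd h3 hz'
          · exact Or.inr h3
      exact fun z' hz' => hsub hz'
    have hall' : ∀ z', ∃ x : P j, γ z' = emb P s r j x := by
      intro z'
      by_cases h1 : γ z' = Wd.core (r j)
      · exact ⟨⟨s j, hP.mem j⟩, by rw [h1, emb_base]⟩
      · obtain ⟨x, -, hx⟩ := hall z' h1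
        exact ⟨x, hx⟩
    choose γ' hγ' using hall'
    refine hPj j γ' ?_ ?_
    · rw [(isometry_emb (r := r) j).isEmbedding.continuous_iff]
      have : (emb P s r j ∘ γ') = γ := funext fun z' => (hγ' z').symm
      rw [this]
      exact hγ
    · intro a b hab
      apply hinj
      rw [hγ', hγ', hab]
  · push Not at h
    have hall : ∀ z, ∃ x, γ z = Wd.core x := by
      intro z
      rcases cases_emb (γ z) with ⟨x, hx⟩ | ⟨j, x, hx⟩
      · exact ⟨x, hx⟩
      · by_cases h1 : (x : M) = s j
        · obtain ⟨x, hx'⟩ := x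
          change x = s j at h1
          subst h1
          exact ⟨r j, by rw [hx, emb_base]⟩
        · exact absurd ⟨x, h1, hx⟩ (h z j)
    choose γ' hγ' using hall
    refine hC γ' ?_ ?_
    · rw [(isometry_core (P := P) (s := s) (r := r)).isEmbedding.continuous_iff]
      have : (Wd.core ∘ γ' : Circle → Wd P s r) = γ := funext fun z' => (hγ' z').symm
      rw [this]
      exact hγ
    · intro a b hab
      apply hinj
      rw [hγ', hγ', hab]

end Pool.Agent.Q172.KT
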