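import Pool.Agent.Q172.KT.Def

/-!
# Pieces inside the glued space, connected preimages under `rho`, continuity of glued maps
-/

set_option autoImplicit false

open Set Topology

namespace Pool.Agent.Q172.KT

section

variable {C M J : Type} [MetricSpace C] [MetricSpace M] {P : J → Set M} {s : J → M} {r : J → C}

open Classical in
/-- The piece `P j` inside the glued space. -/
noncomputable def emb (P : J → Set M) (s : J → M) (r : J → C) (j : J) (x : P j) : Wd P s r :=
  if h : (x : M) = s j then Wd.core (r j) else Wd.pc j x x.2 h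

theorem emb_base (j : J) (h : s j ∈ P j) : emb P s r j ⟨s j, h⟩ = Wd.core (r j) := by
  unfold emb
  rw [dif_pos rfl]

theorem emb_of_ne (j : J) (x : M) (hx : x ∈ P j) (h : x ≠ s j) :
    emb P s r j ⟨x, hx⟩ = Wd.pc j x hx h := by
  unfold emb
  rw [dif_neg h]

theorem isometry_emb (j : J) : Isometry (emb P s r j) := by
  refine Isometry.of_dist_eq fun x y => ?_
  rw [dist_def]
  obtain ⟨x, hx⟩ := x
  obtain ⟨y, hy⟩ := y
  by_cases h1 : x = s j
  · subst h1
    rw [emb_base]
    by_cases h2 : y = s j
    · subst h2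
      rw [emb_base, wdist_self, dist_self]
    · rw [emb_of_ne j y hy h2, wdist_core_pc, dist_self, zero_add, Subtype.dist_eq, dist_comm]
  · rw [emb_of_ne j x hx h1]
    by_cases h2 : y = s j
    · subst h2
      rw [emb_base, wdist_pc_core, dist_self, add_zero, Subtype.dist_eq]
    · rw [emb_of_ne j y hy h2, wdist_pc_same, Subtype.dist_eq]

theorem rho_emb (j : J) (x : P j) : rho (emb P s r j x) = r j := by
  obtain ⟨x, hx⟩ := x
  by_cases h1 : x = s j
  · subst h1; rw [emb_base]; rfl
  · rw [emb_of_ne j x hx h1]; rfl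

theorem ht_emb (j : J) (x : P j) : ht (emb P s r j x) = dist (x : M) (s j) := by
  obtain ⟨x, hx⟩ := x
  by_cases h1 : x = s j
  · subst h1; rw [emb_base]; simp
  · rw [emb_of_ne j x hx h1]; rfl

/-- Every point is in `C` or in a piece, and a piece contains its base point. -/
theorem cases_emb (w : Wd P s r) : (∃ x, w = Wd.core x) ∨ ∃ (j : J) (x : P j), w = emb P s r j x := by
  rcases w.cases with ⟨x, rfl⟩ | ⟨j, x, h, h', rfl⟩
  · exact Or.inl ⟨x, rfl⟩
  · exact Or.inr ⟨j, ⟨x, h⟩, (emb_of_ne j x h h').symm⟩

end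

/-- The preimage of a connected set under `rho` is connected. -/
theorem connS : S_conn := by
  intro C M J _ _ P s r hP S hS
  obtain ⟨x₀, hx₀⟩ := hS.nonempty
  refine ⟨⟨Wd.core x₀, hx₀⟩, ?_⟩
  refine isPreconnected_of_forall (Wd.core x₀) fun w hw => ?_
  have hcore : IsPreconnected (Wd.core '' S : Set (Wd P s r)) :=
    hS.isPreconnected.image _ isometry_core.continuous.continuousOn
  rcases cases_emb w with ⟨x, rfl⟩ | ⟨j, x, rfl⟩
  · refine ⟨Wd.core '' S, ?_, ⟨x₀, hx₀, rfl⟩, ⟨x, hw, rfl⟩, hcore⟩
    rintro _ ⟨y, hy, rfl⟩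
    exact hy
  · have hrj : r j ∈ S := by
      have h := hw
      rw [mem_setOf_eq, rho_emb] at h
      exact h
    have hpc : IsPreconnected (range (emb P s r j)) := by
      have : ConnectedSpace (P j) := isConnected_iff_connectedSpace.1 (hP.conn j)
      exact isPreconnected_range (isometry_emb j).continuous
    refine ⟨Wd.core '' S ∪ range (emb P s r j), ?_, Or.inl ⟨x₀, hx₀, rfl⟩, Or.inr ⟨x, rfl⟩, ?_⟩
    · rintro _ (⟨y, hy, rfl⟩ | ⟨y, rfl⟩)
      · exact hy
      · rw [mem_setOf_eq, rho_emb]; exact hrj
    · refine IsPreconnected.union (Wd.core (r j)) ⟨r j, hrj, rfl⟩ ⟨⟨s j, hP.mem j⟩, ?_⟩ hcore hpc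
      exact emb_base j (hP.mem j)

/-- Continuity of glued maps. -/
theorem glueS : S_glue := by
  intro C M J Z _ _ _ _ P s r hP f g hf hg hfg
  have hgu : UniformContinuous g := CompactSpace.uniformContinuous_of_continuous hg
  have hge : ∀ (j : J) (x : P j), glue f g (emb P s r j x) = g x := by
    rintro j ⟨x, hx⟩
    by_cases h1 : x = s j
    · subst h1
      rw [emb_base]
      exact (hfg j).symm
    · rw [emb_of_ne j x hx h1]; rfl
  have hgr : ∀ (j : J) (x : P j), g (s j) = f (rho (emb P s r j x)) := by
    intro j x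
    rw [rho_emb]; exact hfg j
  rw [Metric.continuous_iff]
  intro w ε hε
  obtain ⟨δ, hδ, hδg⟩ := Metric.uniformContinuous_iff.1 hgu (ε / 3) (by positivity)
  -- the value at `w'` and the value at its retraction are near if the height is small
  have key : ∀ w' : Wd P s r, ht w' < δ → dist (glue f g w') (f (rho w')) < ε / 3 := by
    intro w' hw'
    rcases cases_emb w' with ⟨x, rfl⟩ | ⟨j, x, rfl⟩
    · change dist (f x) (f x) < ε / 3
      rw [dist_self]; positivity
    · rw [hge, ← hgr j x]
      apply hδg
      rw [← ht_emb (r := r) j x]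
      exact hw'
  by_cases hw : ∃ x, w = Wd.core x
  · obtain ⟨x, rfl⟩ := hw
    obtain ⟨δ', hδ', hδf⟩ := Metric.continuous_iff.1 hf x (ε / 3) (by positivity)
    refine ⟨min δ δ', lt_min hδ hδ', fun w' hw' => ?_⟩
    have h1 : ht w' < δ := by
      have := ht_le_wdist w' (Wd.core x)
      rw [ht_core, add_zero] at this
      exact lt_of_le_of_lt this (lt_of_lt_of_le hw' (min_le_left _ _))
    have h2 : dist (rho w') x < δ' := by
      have := rho_le_wdist w' (Wd.core x)
      exact lt_of_le_of_lt this (lt_of_lt_of_le hw' (min_le_right _ _))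
    have h3 := key w' h1
    have h4 := hδf _ h2
    change dist (glue f g w') (f x) < ε
    have h5 := dist_triangle (glue f g w') (f (rho w')) (f x)
    linarith
  · -- in a piece
    rcases w.cases with ⟨x, rfl⟩ | ⟨j, x, h, h', rfl⟩
    · exact absurd ⟨x, rfl⟩ hw
    · have hpos : 0 < dist x (s j) := dist_pos.2 h'
      refine ⟨min δ (dist x (s j)), lt_min hδ hpos, fun w' hw' => ?_⟩
      have h1 : dist w' (Wd.pc j x h h' : Wd P s r) < dist x (s j) :=
        lt_of_lt_of_le hw' (min_le_right _ _)
      have h2 : dist w' (Wd.pc j x h h' : Wd P s r) < δ := lt_of_lt_of_le hw' (min_le_left _ _)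
      have hs : Same w' (Wd.pc j x h h') := by
        by_contra hn
        have h3 := wdist_of_not_same hn
        rw [dist_def, h3] at h1
        simp only [ht_pc, rho_pc] at h1
        have h4 := ht_nonneg w'
        have h5 := dist_nonneg (x := rho w') (y := r j)
        linarith
      obtain ⟨j', y, x', k, k', l, l', rfl, he⟩ := hs
      have hj : j = j' := by
        have := congrArg (fun w : Wd P s r => Sum.elim (fun _ => j) (fun z => z.1.1) w) he
        exact this
      subst hj
      have hx : x = x' := by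
        have := congrArg (fun w : Wd P s r => Sum.elim (fun _ => x) (fun z => z.1.2) w) he
        exact this
      subst hx
      rw [dist_def, wdist_pc_same] at h2
      have h6 := hδg h2
      change dist (g y) (g x) < ε
      linarith

end Pool.Agent.Q172.KT
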