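import Pool.Agent.Q172.KT.Att

/-!
# One-point unions of exactly `k`-to-one images of dendrites: definitions and statements

Plan. `Y₂` is the image of a forest `E` (start: the dendrite `D₂`). As long as some component of `E`
contains two points `b ≠ b'` of the fibre of `p`, the component is cut along an arc from `b` to `b'`:
there are `t 0 < t 1 < ... → T` on the arc such that `α (t j)` has a partner `m j` (another point of the
same fibre) with `m j → u ≠ α T`; the part of `E` between `t j` and `t (j + 1)` is attached to `m j`
instead of `α (t j)`. The map is still exactly `k`-to-one, and there is one more component. In the end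
there are `k` components with one point of the fibre each; they are attached to the points of the
fibre of `p` in `D₁`.
-/

set_option autoImplicit false

open Set Topology

namespace Pool.Agent.Q172.KT

/-- No simple closed curve. -/
def NoCircle (X : Type) [TopologicalSpace X] : Prop :=
  ∀ γ : Circle → X, Continuous γ → ¬ Function.Injective γ

/-- A dendrite: a compact, connected, locally connected metrizable space without simple closed
curve. -/
structure IsDendrite (X : Type) [TopologicalSpace X] : Prop where
  metrizable : TopologicalSpace.MetrizableSpace X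
  compact : CompactSpace X
  connected : ConnectedSpace X
  locallyConnected : LocallyConnectedSpace X
  noCircle : NoCircle X

/-- The attached pieces: compact connected locally connected sets containing their base points, all
but finitely many of them smaller than any given `ε`. -/
structure Pieces {J M : Type} [MetricSpace M] (P : J → Set M) (s : J → M) : Prop where
  mem : ∀ j, s j ∈ P j
  compact : ∀ j, IsCompact (P j)
  conn : ∀ j, IsConnected (P j)
  lc : ∀ j, LocallyConnectedSpace (P j)
  null : ∀ ε > 0, {j | ∃ x ∈ P j, ε ≤ dist x (s j)}.Finite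

/-- JOB A2. Compactness. Sequentially: a sequence in `Wd P s r` has infinitely many terms in `C`
(compact, `isometry_core`), or infinitely many terms in one piece `P j` (compact; on the piece
`wdist_pc_same` is the distance of `M`, and if the limit in `M` is `s j` then the limit in `Wd` is
`Wd.core (r j)`, because the distance to it is `dist x (s j)`), or it has a subsequence with
`ht → 0` (by `null`; `dist w (core (rho w)) = ht w`), and then the limit of a subsequence of `rho w` in
`C` is a limit. Alternatively: the map from `P j` to `Wd` that sends `s j` to `core (r j)` is an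
isometry, so for `ε > 0` the space is covered by finitely many compact sets and the
`ε`-neighbourhood of `C`, hence totally bounded; completeness similarly. -/
def S_compact : Prop := ∀ {C M J : Type} [MetricSpace C] [MetricSpace M] [CompactSpace C]
  (P : J → Set M) (s : J → M) (r : J → C), Pieces P s → CompactSpace (Wd P s r)

/-- JOB A3. The preimage under `rho` of a connected set `S` is connected: it contains the connected
set `core '' S`, and every point `w` of it outside `core '' S` is in a piece `j` with `r j ∈ S`; the
piece together with `core (r j)` is the continuous (isometric) image of `P j`, connected. -/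
def S_conn : Prop := ∀ {C M J : Type} [MetricSpace C] [MetricSpace M]
  (P : J → Set M) (s : J → M) (r : J → C), Pieces P s → ∀ S : Set C, IsConnected S →
  IsConnected {w : Wd P s r | rho w ∈ S}

/-- JOB A4. Local connectedness. (Use `locallyConnectedSpace_iff_connected_subsets`.) At a point `w` of
the piece `j`: the ball of radius `ht w` at `w` lies in the piece (`ht_le_wdist`, `rho`), and `Wd` is
there isometric to `P j`. At a point `core x`: given `ε`, take a connected neighbourhood `V` of `x` in
`C`, `V ⊆ ball x (ε / 3)`. For the finitely many `j` of `null (ε / 3)` take a connected neighbourhood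
`V j ⊆ ball (s j) (ε / 3)` of `s j` in `P j`; for the other `j` let `V j = P j`. Let `U` be the set of
all `core y`, `y ∈ V`, and `pc j y`, `y ∈ V j`, `r j ∈ V`. It is connected (each `V j` together with
`core (r j)` is connected, and `r j ∈ V`), is in the ball `core x`, `ε`, and contains a ball around
`core x` (`dist (core x) (pc j y) = dist x (r j) + dist y (s j)`, finitely many `V j` matter). -/
def S_lc : Prop := ∀ {C M J : Type} [MetricSpace C] [MetricSpace M] [LocallyConnectedSpace C]
  (P : J → Set M) (s : J → M) (r : J → C), Pieces P s → LocallyConnectedSpace (Wd P s r)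

/-- JOB A5. No simple closed curve. Let `γ` be an injective continuous map of the circle. If a value
`γ z` is in the piece `j`: the piece is clopen in the complement of `core (r j)` (open because of
`ht_le_wdist` and `rho`; its closure adds at most `core (r j)`), the circle minus at most one point
(the preimage of `core (r j)`) is connected, so `γ` has values in the piece and `core (r j)`, which is
isometric to `P j`: contradiction. Otherwise all values are in `core '' C`: contradiction. -/
def S_circle : Prop := ∀ {C M J : Type} [MetricSpace C] [MetricSpace M]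
  (P : J → Set M) (s : J → M) (r : J → C), Pieces P s → NoCircle C → (∀ j, NoCircle (P j)) →
  NoCircle (Wd P s r)

/-- The map on `Wd P s r` given by maps on `C` and on the pieces. -/
def glue {C M J Z : Type} {P : J → Set M} {s : J → M} {r : J → C} (f : C → Z) (g : M → Z)
    (w : Wd P s r) : Z := Sum.elim f (fun z => g z.1.2) w

/-- JOB A6. Continuity of the glued map. At a point of the piece `j` use that `Wd` is locally
isometric to `P j`. At `core x`: for `w` near `core x`, `rho w` is near `x` and `ht w` is small
(`ht_le_wdist`, `rho_le_wdist`); if `w = pc j y` then `dist y (s j) = ht w` is small, so by uniform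
continuity of `g` on the compact space `M` the value `g y` is near `g (s j) = f (r j) = f (rho w)`,
which is near `f x`. -/
def S_glue : Prop := ∀ {C M J Z : Type} [MetricSpace C] [MetricSpace M] [CompactSpace M]
  [MetricSpace Z] (P : J → Set M) (s : J → M) (r : J → C), Pieces P s →
  ∀ (f : C → Z) (g : M → Z), Continuous f → Continuous g → (∀ j, g (s j) = f (r j)) →
  Continuous (glue f g : Wd P s r → Z)

/-- JOB B0. A compact locally connected metric space is locally path connected. Each component `K` is
open and compact, so by the Hahn-Mazurkiewicz theorem (`Pool.Agent.W618.PC.hahn_mazurkiewicz` in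
`Pool/Agent/W618/PC/Final.lean`) there is a continuous surjection `q : unitInterval → K`. Let `x ∈ K`
and `U` an open neighbourhood of `x`. The compact set `q ⁻¹' {x}` is covered by finitely many connected
open subsets of `q ⁻¹' U`, each meeting `q ⁻¹' {x}`; the union of their images is path connected, and
it is a neighbourhood of `x` because it contains the complement of the compact set
`q '' (complement of these finitely many sets)`, which does not contain `x`. -/
def S_lpc : Prop := ∀ (E : Type) [MetricSpace E] [CompactSpace E] [LocallyConnectedSpace E],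
  LocallyPathConnectedSpace E

/-- An arc `α` in the clopen connected set `K` and a retraction `π` (to the parameter) of `K`, such
that `π ⁻¹' {t} \ {α t}` is open. -/
structure Comb {E : Type} [MetricSpace E] (K : Set E) (α : ℝ → E) (π : E → ℝ) : Prop where
  clopen : IsClopen K
  conn : IsConnected K
  cα : ContinuousOn α (Icc 0 1)
  mem : ∀ t ∈ Icc (0 : ℝ) 1, α t ∈ K
  pα : ∀ t ∈ Icc (0 : ℝ) 1, π (α t) = t
  cπ : ContinuousOn π K
  rng : ∀ x ∈ K, π x ∈ Icc (0 : ℝ) 1
  hang : ∀ t ∈ Icc (0 : ℝ) 1, IsOpen {x ∈ K | π x = t ∧ x ≠ α t}

/-- JOB B1 (assume `S_lpc`). Existence of the arc and of the retraction. `K` is open and connected,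
hence path connected; take an arc `α` from `b` to `b'` in `K` (`Pool.Agent.W618.PC.arc : S_ARC` in
`Pool/Agent/W618/PC/Final.lean`: every path contains an arc), `A = α '' [0,1]`. Claim: every component
`U` of `K \ A` (open, path connected) has exactly one boundary point, and it is on `A`. At least one:
`K` is connected. If there are two, `p ≠ q ∈ A`: take disjoint path connected neighbourhoods of `p` and
of `q`; in the first one a path from a point of `U` to `p`; its first point on `A` is `p'`; similarly
`q'`; so there is a path from `p'` to `q'` whose other points are in `U`; it contains an arc, and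
together with the part of `A` between `p'` and `q'` it gives a simple closed curve. For `x ∈ U` let
`π x` be the parameter of the boundary point of `U`, for `x = α t` let `π x = t`. The set of `x ∉ A`
with `π x = t` is a union of components `U`, hence open. Continuity of `π` at `x ∉ A`: `π` is constant on
`U`. At `x = α t`: given `ε`, the compact set of all `α u`, `|u - t| ≥ ε`, does not contain `x`; let `V` be
a connected neighbourhood of `x` which misses it; if `y ∈ V` lies in a component `U` with boundary point
`α u` then `V` meets `U` and is not inside `U`, so `V` contains the boundary point `α u`, so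
`|u - t| < ε`. -/
def S_comb : Prop := S_lpc → ∀ (E : Type) [MetricSpace E] [CompactSpace E]
  [LocallyConnectedSpace E], NoCircle E → ∀ (K : Set E), IsClopen K → IsConnected K →
  ∀ b ∈ K, ∀ b' ∈ K, b ≠ b' → ∃ (α : ℝ → E) (π : E → ℝ), Comb K α π ∧ α 0 = b ∧ α 1 = b'

/-- JOB B2. Consequences of `Comb`.
(a) The set of `x ∈ K` with `ε ≤ dist x (α t)` and `π x ≠ t` is compact (`hang`), so `|π x - t|` has a
positive minimum on it.
(b), (c), (d): the three sets are closed, hence compact; they are retracts of `K`, hence connected and
locally connected (a retraction is a quotient map; see `Topology.IsQuotientMap` and local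
connectedness, or prove directly: if `ρ : K → L` is a retraction, `x ∈ L`, `U` a neighbourhood of `x`,
`V ⊆ ρ ⁻¹' U` a connected open neighbourhood of `x` in `K`, then `ρ '' V` is connected, inside `U` and
contains `V ∩ L`). The retraction onto `{x ∈ K | π x ≤ t}` is the identity on this closed set and sends
the closed set `{x ∈ K | t < π x} ∪ {α t}` to `α t`; similarly for `t ≤ π x`. The retraction onto
`{x ∈ K | t < π x ∧ π x ≤ t'} ∪ {α t}`: identity on this closed set, `α t` on `{x ∈ K | π x ≤ t}`, `α t'`
on the closed set `{x ∈ K | t' < π x} ∪ {α t'}`. The sets are closed because of `hang`. -/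
def S_parts : Prop := ∀ (E : Type) [MetricSpace E] [CompactSpace E]
  [LocallyConnectedSpace E] (K : Set E) (α : ℝ → E) (π : E → ℝ), Comb K α π →
  (∀ t ∈ Icc (0 : ℝ) 1, ∀ ε > 0, ∃ δ > 0, ∀ x ∈ K, π x ≠ t → |π x - t| < δ → dist x (α t) < ε) ∧
  (∀ t ∈ Icc (0 : ℝ) 1, IsCompact {x ∈ K | π x ≤ t} ∧ IsConnected {x ∈ K | π x ≤ t} ∧
    LocallyConnectedSpace {x ∈ K | π x ≤ t}) ∧
  (∀ t ∈ Icc (0 : ℝ) 1, IsCompact {x ∈ K | t ≤ π x} ∧ IsConnected {x ∈ K | t ≤ π x} ∧
    LocallyConnectedSpace {x ∈ K | t ≤ π x}) ∧
  (∀ t ∈ Icc (0 : ℝ) 1, ∀ t' ∈ Icc (0 : ℝ) 1, t < t' →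
    IsCompact {x ∈ K | (t < π x ∧ π x ≤ t') ∨ x = α t} ∧
    IsConnected {x ∈ K | (t < π x ∧ π x ≤ t') ∨ x = α t} ∧
    LocallyConnectedSpace {x ∈ K | (t < π x ∧ π x ≤ t') ∨ x = α t})

/-- JOB B3. Selection of the cutting points. For every `t ∈ [0,1]` choose `m t ≠ α t` with
`f (m t) = f (α t)`. `[0,1]` is the union of the sets `T n = {t | 1 / (n + 1) ≤ dist (m t) (α t)}` and is
uncountable, so some `T n` is infinite; so there is a strictly monotone sequence `t j` in `T n`, which
converges to some `T ∈ [0,1]`; pass to a subsequence with `m (t j) → u`. If the sequence is increasing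
this is the first alternative with `v = α T`, otherwise the second. -/
def S_select : Prop := ∀ (E Z : Type) [MetricSpace E] [CompactSpace E] [MetricSpace Z] (f : E → Z)
  (α : ℝ → E), Continuous f → ContinuousOn α (Icc 0 1) →
  (∀ x : E, ∃ y, y ≠ x ∧ f y = f x) →
  ∃ (t : ℕ → ℝ) (T : ℝ) (m : ℕ → E) (u : E), (∀ j, t j ∈ Icc (0 : ℝ) 1) ∧ T ∈ Icc (0 : ℝ) 1 ∧
    (StrictMono t ∨ StrictAnti t) ∧ Filter.Tendsto t Filter.atTop (𝓝 T) ∧
    (∀ j, f (m j) = f (α (t j))) ∧ Filter.Tendsto m Filter.atTop (𝓝 u) ∧ u ≠ α T

/-- `Good Z k Y p N`: `Y` is the image, by an exactly `k`-to-one map, of a forest with `N`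
components, each of which contains a point of the fibre of `p`. -/
def Good (Z : Type) [MetricSpace Z] (k : ℕ) (Y : Set Z) (p : Z) (N : ℕ) : Prop :=
  ∃ (E : Type) (_ : MetricSpace E), CompactSpace E ∧ LocallyConnectedSpace E ∧ NoCircle E ∧
    ∃ f : E → Z, Continuous f ∧ (∀ x, f x ∈ Y) ∧ (∀ y ∈ Y, (f ⁻¹' {y}).ncard = k) ∧
      ∃ κ : E → Fin N, Continuous κ ∧ ∀ i, IsConnected (κ ⁻¹' {i}) ∧ ∃ x, κ x = i ∧ f x = p

/-- JOB B4 (assume all the statements above). One surgery. `p ∈ Y` has `k > N` preimages, so there are
`b ≠ b'` with `f b = f b' = p` and `κ b = κ b' = i₀`. Let `K = κ ⁻¹' {i₀}` (clopen), `α`, `π` as in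
`S_comb`, and `t`, `T`, `m`, `u` as in `S_select` (every `x` has a partner because `k ≥ 2`). If `t` is
strictly decreasing replace `α`, `π`, `t`, `T` by `α (1 - ·)`, `1 - π`, `1 - t`, `1 - T` (again a `Comb`) and
exchange `b`, `b'`; so assume `t` strictly increasing, so `t j < T`. By the first part of `S_parts` for `T`
and since `m j → u ≠ α T`, after dropping the first terms we may assume that no `m j` is in `K` with
`t 0 < π (m j) < T`. Let `C` be the subtype of all `x : E` with not (`x ∈ K` and `t 0 < π x` and
`π x < T`), `P j = {x ∈ K | (t j < π x ∧ π x ≤ t (j + 1)) ∨ x = α (t j)}`, `s j = α (t j)`, `r j = m j`.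
`Pieces P s` holds by `S_parts` (null: again the first part for `T`, the `s j` converge to `α T`). `C` is
the disjoint union of the clopen subsets (of `C`) `{x ∈ K | π x ≤ t 0}`, `{x ∈ K | T ≤ π x}` and
`κ ⁻¹' {i}`, `i ≠ i₀`; they are connected and locally connected; this defines `κ'` on `C` with values in
`Fin (N + 1)` (`i ≠ i₀` keeps its number, the first set gets `i₀`, the second gets the last number)
and on `Wd P s r` by composition with `rho`. The natural map `Wd P s r → E` (identity on `C` and on the
pieces) is a bijection which transforms `f` into `glue f f`, so the fibres have `k` elements. -/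
def S_step : Prop := S_compact → S_conn → S_lc → S_circle → S_glue → S_lpc → S_comb → S_parts →
  S_select → ∀ (Z : Type) [MetricSpace Z] (k : ℕ) (Y : Set Z) (p : Z) (N : ℕ), 2 ≤ k → p ∈ Y →
  1 ≤ N → N < k → Good Z k Y p N → Good Z k Y p (N + 1)

/-- `Y` is the image of a dendrite by an exactly `k`-to-one continuous map. -/
def IsImage {Z : Type} [MetricSpace Z] (k : ℕ) (Y : Set Z) : Prop :=
  ∃ (D : Type) (_ : TopologicalSpace D), IsDendrite D ∧ ∃ f : D → Z, Continuous f ∧
    range f = Y ∧ ∀ y ∈ Y, (f ⁻¹' {y}).ncard = k

/-- JOB C (assume `S_compact`, `S_conn`, `S_lc`, `S_circle`, `S_glue`). The last gluing. `E`, `f₂`, `κ`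
from `Good` with `N = k`: the `k` points of `f₂ ⁻¹' {p}` are in the `k` components, at least one in each,
so exactly one in each: `b i`. Let `a : Fin k → D₁` enumerate `f₁ ⁻¹' {p}` (choose a metric on `D₁`),
`C = D₁`, `M = E`, `J = Fin k`, `P i = κ ⁻¹' {i}`, `s i = b i`, `r i = a i`. `Wd P s r` is a dendrite
and `glue f₁ f₂` is exactly `k`-to-one onto `Y₁ ∪ Y₂`: over `p` the points `core (a i)`, over
`y ∈ Y₁ \ {p}` the points of `f₁ ⁻¹' {y}`, over `y ∈ Y₂ \ {p}` the points of `f₂ ⁻¹' {y}`. -/
def S_final : Prop := S_compact → S_conn → S_lc → S_circle → S_glue →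
  ∀ (Z : Type) [MetricSpace Z] (k : ℕ) (Y₁ Y₂ : Set Z) (p : Z), 2 ≤ k → Y₁ ∩ Y₂ = {p} →
  IsImage k Y₁ → Good Z k Y₂ p k → IsImage k (Y₁ ∪ Y₂)

end Pool.Agent.Q172.KT
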