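import Pool.Agent.Q172.KT.Lc

/-!
# The last gluing
-/

set_option autoImplicit false
set_option linter.unusedSectionVars false

open Set Topology

namespace Pool.Agent.Q172.KT

theorem noCircle_sub {X : Type} [TopologicalSpace X] (h : NoCircle X) (S : Set X) : NoCircle S := by
  intro γ hγ hi
  exact h (fun z => (γ z : X)) (continuous_subtype_val.comp hγ)
    (Subtype.val_injective.comp hi)

section

variable {C M J : Type} {P : J → Set M} {s : J → M} {r : J → C}

theorem core_inj : Function.Injective (Wd.core : C → Wd P s r) := Sum.inl_injective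

theorem pc_inj {i j : J} {x y : M} {h : x ∈ P i} {h' : x ≠ s i} {g : y ∈ P j} {g' : y ≠ s j}
    (he : (Wd.pc i x h h' : Wd P s r) = Wd.pc j y g g') : i = j ∧ x = y := by
  have h1 := Sum.inr_injective he
  have h2 := congrArg Subtype.val h1
  exact Prod.mk.inj h2

theorem core_ne_pc {c : C} {j : J} {y : M} {g : y ∈ P j} {g' : y ≠ s j} :
    (Wd.core c : Wd P s r) ≠ Wd.pc j y g g' := fun h => by cases h

end

/-- The last gluing. -/
theorem finalS : S_final := by
  intro hcomp hconn hlc hcirc hglue Z _ k Y₁ Y₂ p hk hY h1 h2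
  obtain ⟨D, tD, hD, f₁, hf₁, hr₁, hc₁⟩ := h1
  obtain ⟨E, mE, hEc, hElc, hEnc, f₂, hf₂, hfY, hc₂, κ, hκ, hκc⟩ := h2
  have := hD.metrizable
  let _ : MetricSpace D := TopologicalSpace.metrizableSpaceMetric D
  have hDc := hD.compact
  have hDcon := hD.connected
  have hDlc := hD.locallyConnected
  have hp : p ∈ Y₁ ∩ Y₂ := by rw [hY]; exact rfl
  choose b hb using fun i => (hκc i).2
  have hbinj : Function.Injective b := by
    intro i j hij
    have h1 := (hb i).1
    rw [hij, (hb j).1] at h1
    exact h1.symm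
  -- the fibre of `p` in `E`
  have hfin₂ : ∀ y ∈ Y₂, (f₂ ⁻¹' {y}).Finite := fun y hy =>
    finite_of_ncard_ne_zero (by rw [hc₂ y hy]; omega)
  have hrb : range b = f₂ ⁻¹' {p} := by
    apply eq_of_subset_of_ncard_le
    · rintro _ ⟨i, rfl⟩
      exact (hb i).2
    · rw [hc₂ p hp.2, ← image_univ, ncard_image_of_injective _ hbinj, ncard_univ, Nat.card_fin]
    · exact hfin₂ p hp.2
  have hbu : ∀ x, f₂ x = p → x = b (κ x) := by
    intro x hx
    have : x ∈ range b := by rw [hrb]; exact hx
    obtain ⟨i, rfl⟩ := this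
    rw [(hb i).1]
  -- the fibre of `p` in `D`
  have hfin₁ : ∀ y ∈ Y₁, (f₁ ⁻¹' {y}).Finite := fun y hy =>
    finite_of_ncard_ne_zero (by rw [hc₁ y hy]; omega)
  obtain ⟨e⟩ : Nonempty ((f₁ ⁻¹' {p} : Set D) ≃ Fin k) := by
    have h3 : Finite (f₁ ⁻¹' {p} : Set D) := (hfin₁ p hp.1).to_subtype
    exact ⟨Finite.equivFinOfCardEq (by rw [Nat.card_coe_set_eq]; exact hc₁ p hp.1)⟩
  let a : Fin k → D := fun i => (e.symm i : D)
  have ha : ∀ i, f₁ (a i) = p := fun i => (e.symm i).2
  let P : Fin k → Set E := fun i => κ ⁻¹' {i}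
  have hP : Pieces P b := by
    refine ⟨fun i => (hb i).1, fun i => ?_, fun i => (hκc i).1, fun i => ?_, fun ε _ => toFinite _⟩
    · exact ((isClosed_singleton (x := i)).preimage hκ).isCompact
    · exact ((isOpen_discrete {i}).preimage hκ).locallyConnectedSpace
  have hglue' := hglue P b a hP f₁ f₂ hf₁ hf₂ (fun j => by rw [(hb j).2, ha j])
  have hcompW : CompactSpace (Wd P b a) := hcomp P b a hP
  refine ⟨Wd P b a, inferInstance, ⟨inferInstance, hcompW, ?_, hlc P b a hP,
    hcirc P b a hP hD.noCircle fun j => noCircle_sub hEnc _⟩, glue f₁ f₂, hglue', ?_, ?_⟩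
  · have h3 := hconn P b a hP univ isConnected_univ
    have h4 : {w : Wd P b a | rho w ∈ (univ : Set D)} = univ := by
      ext w; simp
    rw [h4] at h3
    exact connectedSpace_iff_univ.2 h3
  · ext y
    constructor
    · rintro ⟨w, rfl⟩
      rcases w.cases with ⟨x, rfl⟩ | ⟨j, x, h, h', rfl⟩
      · left
        rw [← hr₁]
        exact ⟨x, rfl⟩
      · exact Or.inr (hfY x)
    · rintro (hy | hy)
      · rw [← hr₁] at hy
        obtain ⟨x, rfl⟩ := hy
        exact ⟨Wd.core x, rfl⟩
      · by_cases hyp : y = p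
        · have : y ∈ range f₁ := by rw [hr₁, hyp]; exact hp.1
          obtain ⟨x, rfl⟩ := this
          exact ⟨Wd.core x, rfl⟩
        · have h3 : (f₂ ⁻¹' {y}).Nonempty := by
            rw [← ncard_pos (hfin₂ y hy), hc₂ y hy]; omega
          obtain ⟨x, hx⟩ := h3
          refine ⟨Wd.pc (κ x) x rfl ?_, hx⟩
          intro h4
          apply hyp
          rw [← hx, h4]
          exact (hb _).2
  · intro y hy
    by_cases hyp : y ∈ Y₁
    · have h3 : (glue f₁ f₂ : Wd P b a → Z) ⁻¹' {y} = Wd.core '' (f₁ ⁻¹' {y}) := by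
        ext w
        constructor
        · intro hw
          rcases w.cases with ⟨x, rfl⟩ | ⟨j, x, h, h', rfl⟩
          · exact ⟨x, hw, rfl⟩
          · exfalso
            have h5 : f₂ x = y := hw
            have h6 : y ∈ Y₁ ∩ Y₂ := ⟨hyp, h5 ▸ hfY x⟩
            rw [hY] at h6
            have h7 : f₂ x = p := h5.trans h6
            apply h'
            have h8 := hbu x h7
            have h9 : κ x = j := h
            rw [h9] at h8
            exact h8
        · rintro ⟨x, hx, rfl⟩
          exact hx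
      rw [h3, ncard_image_of_injective _ core_inj]
      exact hc₁ y hyp
    · have hy₂ : y ∈ Y₂ := hy.resolve_left hyp
      have hne : ∀ x, f₂ x = y → x ≠ b (κ x) := by
        intro x hx h
        apply hyp
        rw [← hx, h, (hb _).2]
        exact hp.1
      have h3 : (glue f₁ f₂ : Wd P b a → Z) ⁻¹' {y} =
          (fun x => emb P b a (κ x) ⟨x, rfl⟩) '' (f₂ ⁻¹' {y}) := by
        ext w
        constructor
        · intro hw
          rcases w.cases with ⟨x, rfl⟩ | ⟨j, x, h, h', rfl⟩
          · exfalso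
            apply hyp
            rw [← hr₁]
            exact ⟨x, hw⟩
          · refine ⟨x, hw, ?_⟩
            have h9 : κ x = j := h
            subst h9
            exact emb_of_ne (P := P) (s := b) (r := a) (κ x) x rfl h'
        · rintro ⟨x, hx, rfl⟩
          have h4 := emb_of_ne (r := a) (κ x) x (P := P) rfl (hne x hx)
          change glue f₁ f₂ (emb P b a (κ x) ⟨x, rfl⟩) = y
          rw [h4]
          exact hx
      have h7 : InjOn (fun x => emb P b a (κ x) ⟨x, rfl⟩) (f₂ ⁻¹' {y}) := by
        intro x hx x' hx' hxx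
        have h4 := emb_of_ne (r := a) (κ x) x (P := P) rfl (hne x hx)
        have h5 := emb_of_ne (r := a) (κ x') x' (P := P) rfl (hne x' hx')
        have h6 : emb P b a (κ x) ⟨x, rfl⟩ = emb P b a (κ x') ⟨x', rfl⟩ := hxx
        rw [h4, h5] at h6
        exact (pc_inj h6).2
      rw [h3, h7.ncard_image]
      exact hc₂ y hy₂

end Pool.Agent.Q172.KT
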