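import Pool.Agent.Q172.KT.Comp

/-!
# Local connectedness of the glued space
-/

set_option autoImplicit false
set_option linter.unusedSectionVars false

open Set Topology

namespace Pool.Agent.Q172.KT

/-- Local connectedness. -/
theorem lcS : S_lc := by
  intro C M J _ _ _ P s r hP
  rw [locallyConnectedSpace_iff_connected_subsets]
  intro w U hU
  have hlc : ∀ j, LocallyConnectedSpace (P j) := hP.lc
  by_cases hw : ∃ j, w ∈ opc P s r j
  · -- in a piece
    obtain ⟨j, x, hx, rfl⟩ := hw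
    have h1 : U ∩ opc P s r j ∈ 𝓝 (emb P s r j x) :=
      Filter.inter_mem hU ((isOpen_opc j).mem_nhds ⟨x, hx, rfl⟩)
    have h2 : emb P s r j ⁻¹' (U ∩ opc P s r j) ∈ 𝓝 x :=
      (isometry_emb j).continuous.continuousAt.preimage_mem_nhds h1
    obtain ⟨V, hV, hVc, hVU⟩ := locallyConnectedSpace_iff_connected_subsets.1 (hlc j) x _ h2
    refine ⟨emb P s r j '' V, ?_, hVc.image _ (isometry_emb j).continuous.continuousOn, ?_⟩
    · obtain ⟨δ, hδ, hδV⟩ := Metric.mem_nhds_iff.1 hV
      refine Metric.mem_nhds_iff.2 ⟨min δ (dist (x : M) (s j)), lt_min hδ (dist_pos.2 hx), ?_⟩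
      intro w' hw'
      obtain ⟨y, hy, rfl⟩ := mem_of_near j x w' (lt_of_lt_of_le hw' (min_le_right _ _))
      refine ⟨y, hδV ?_, rfl⟩
      have h3 : dist (emb P s r j y) (emb P s r j x) < δ := lt_of_lt_of_le hw' (min_le_left _ _)
      rw [(isometry_emb j).dist_eq] at h3
      exact h3
    · rintro _ ⟨y, hy, rfl⟩
      exact (hVU hy).1
  · -- a point of the core
    obtain ⟨c, rfl⟩ : ∃ c, w = Wd.core c := by
      rcases w.cases with ⟨x, hx⟩ | ⟨j, x, h, h', rfl⟩
      · exact ⟨x, hx⟩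
      · exact absurd ⟨j, ⟨x, h⟩, h', (emb_of_ne j x h h').symm⟩ hw
    obtain ⟨ε, hε, hεU⟩ := Metric.mem_nhds_iff.1 hU
    obtain ⟨V, hV, hVc, hVε⟩ := locallyConnectedSpace_iff_connected_subsets.1 ‹LocallyConnectedSpace C›
      c (Metric.ball c (ε / 3)) (Metric.ball_mem_nhds c (by positivity))
    set N : Set J := {j | ∃ x ∈ P j, ε / 3 ≤ dist x (s j)} with hN
    have hfin : N.Finite := hP.null (ε / 3) (by positivity)
    have hch : ∀ j, ∃ (Q : Set (P j)) (δ : ℝ), 0 < δ ∧ IsPreconnected Q ∧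
        (∀ x ∈ Q, dist (x : M) (s j) < ε / 3) ∧ (⟨s j, hP.mem j⟩ : P j) ∈ Q ∧
        (∀ x : P j, dist (x : M) (s j) < δ → x ∈ Q) ∧ (j ∉ N → Q = univ) := by
      intro j
      by_cases hj : j ∈ N
      · obtain ⟨Q, hQ, hQc, hQε⟩ := locallyConnectedSpace_iff_connected_subsets.1 (hlc j)
          ⟨s j, hP.mem j⟩ (Metric.ball ⟨s j, hP.mem j⟩ (ε / 3)) (Metric.ball_mem_nhds _ (by positivity))
        obtain ⟨δ, hδ, hδQ⟩ := Metric.mem_nhds_iff.1 hQ
        exact ⟨Q, δ, hδ, hQc, fun x hx => hQε hx, mem_of_mem_nhds hQ, fun x hx => hδQ hx,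
          fun h => absurd hj h⟩
      · have : ConnectedSpace (P j) := isConnected_iff_connectedSpace.1 (hP.conn j)
        refine ⟨univ, 1, one_pos, isPreconnected_univ, fun x _ => ?_, mem_univ _,
          fun x _ => mem_univ _, fun _ => rfl⟩
        by_contra hcon
        exact hj ⟨x, x.2, not_lt.1 hcon⟩
    choose Q δ hδ hQc hQε hQs hQδ hQN using hch
    set W : Set (Wd P s r) := Wd.core '' V ∪ ⋃ (j : J) (_ : r j ∈ V), emb P s r j '' Q j with hW
    refine ⟨W, ?_, ?_, ?_⟩
    · have h1 : {w : Wd P s r | rho w ∈ V} ∈ 𝓝 (Wd.core c : Wd P s r) :=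
        continuous_rho.continuousAt.preimage_mem_nhds hV
      have h2 : (⋂ j ∈ N, Metric.ball (Wd.core c : Wd P s r) (δ j)) ∈ 𝓝 (Wd.core c : Wd P s r) :=
        (Filter.biInter_mem hfin).2 fun j _ => Metric.ball_mem_nhds _ (hδ j)
      refine Filter.mem_of_superset (Filter.inter_mem h1 h2) ?_
      rintro w ⟨hw1, hw2⟩
      rcases cases_emb w with ⟨x, rfl⟩ | ⟨j, x, rfl⟩
      · exact Or.inl ⟨x, hw1, rfl⟩
      · right
        have hrj : r j ∈ V := by
          have h := hw1
          rw [mem_setOf_eq, rho_emb] at h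
          exact h
        refine mem_iUnion₂.2 ⟨j, hrj, x, ?_, rfl⟩
        by_cases hj : j ∈ N
        · apply hQδ
          have h3 : dist (emb P s r j x) (Wd.core c) < δ j := mem_iInter₂.1 hw2 j hj
          have h4 := ht_le_wdist (emb P s r j x) (Wd.core c)
          rw [ht_emb, ht_core, add_zero] at h4
          exact lt_of_le_of_lt h4 h3
        · rw [hQN j hj]; exact mem_univ _
    · have hcV : c ∈ V := mem_of_mem_nhds hV
      have hcore : IsPreconnected (Wd.core '' V : Set (Wd P s r)) :=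
        hVc.image _ isometry_core.continuous.continuousOn
      refine isPreconnected_of_forall (Wd.core c) ?_
      rintro w (⟨x, hx, rfl⟩ | hw)
      · exact ⟨Wd.core '' V, fun y hy => Or.inl hy, ⟨c, hcV, rfl⟩, ⟨x, hx, rfl⟩, hcore⟩
      · obtain ⟨j, hj, x, hx, rfl⟩ := mem_iUnion₂.1 hw
        refine ⟨Wd.core '' V ∪ emb P s r j '' Q j, ?_, Or.inl ⟨c, hcV, rfl⟩, Or.inr ⟨x, hx, rfl⟩, ?_⟩
        · rintro y (hy | hy)
          · exact Or.inl hy
          · exact Or.inr (mem_iUnion₂.2 ⟨j, hj, hy⟩)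
        · refine IsPreconnected.union (Wd.core (r j)) ⟨r j, hj, rfl⟩
            ⟨⟨s j, hP.mem j⟩, hQs j, emb_base j (hP.mem j)⟩ hcore
            ((hQc j).image _ (isometry_emb j).continuous.continuousOn)
    · refine Subset.trans ?_ hεU
      rintro w (⟨x, hx, rfl⟩ | hw)
      · have h1 := hVε hx
        change dist (Wd.core x : Wd P s r) (Wd.core c) < ε
        rw [dist_def, wdist_core]
        have h2 : dist x c < ε / 3 := h1
        linarith
      · obtain ⟨j, hj, x, hx, rfl⟩ := mem_iUnion₂.1 hw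
        have h1 := wdist_le (emb P s r j x) (Wd.core c)
        rw [ht_emb, rho_emb, ht_core, rho_core, add_zero] at h1
        have h2 := hQε j x hx
        have h3 : dist (r j) c < ε / 3 := hVε hj
        change dist (emb P s r j x) (Wd.core c) < ε
        rw [dist_def]
        linarith

end Pool.Agent.Q172.KT
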