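import Pool.Agent.Q172.KT.Def
import Pool.Agent.W618.PC.Final

/-!
# Compact locally connected metric spaces are locally path connected
-/

set_option autoImplicit false

open Set Topology Filter

namespace Pool.Agent.Q172.KT

theorem lpcS : S_lpc := by
  intro E _ _ _
  -- every component is locally path connected
  have hcomp : ∀ x : E, LocallyPathConnectedSpace (connectedComponent x) := by
    intro x
    have h1 : IsOpen (connectedComponent x) := isOpen_connectedComponent
    have h2 : CompactSpace (connectedComponent x) :=
      isCompact_iff_compactSpace.1 isClosed_connectedComponent.isCompact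
    have h3 : ConnectedSpace (connectedComponent x) :=
      isConnected_iff_connectedSpace.1 isConnected_connectedComponent
    have h4 : LocallyConnectedSpace (connectedComponent x) := h1.locallyConnectedSpace
    obtain ⟨q, hq, hqs⟩ := Pool.Agent.W618.PC.hahn_mazurkiewicz (connectedComponent x)
    have h6 : LocallyPathConnectedSpace unitInterval :=
      (isQuotientMap_projIcc (a := (0 : ℝ)) (b := 1) (h := zero_le_one)).locallyPathConnectedSpace
    have h5 : IsQuotientMap q := hq.isClosedMap.isQuotientMap hq hqs
    exact h5.locallyPathConnectedSpace
  constructor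
  intro x
  rw [hasBasis_self]
  intro U hU
  have h1 : IsOpen (connectedComponent x) := isOpen_connectedComponent
  have := hcomp x
  let x' : connectedComponent x := ⟨x, mem_connectedComponent⟩
  have h2 : (Subtype.val : connectedComponent x → E) ⁻¹' U ∈ 𝓝 x' :=
    continuous_subtype_val.continuousAt.preimage_mem_nhds hU
  obtain ⟨V, ⟨hV, hVp⟩, hVU⟩ := (path_connected_basis x').mem_iff.1 h2
  refine ⟨Subtype.val '' V, ?_, hVp.image continuous_subtype_val, ?_⟩
  · exact h1.isOpenMap_subtype_val.image_mem_nhds hV
  · rintro _ ⟨y, hy, rfl⟩
    exact hVU hy

end Pool.Agent.Q172.KT
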