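import Pool.Agent.Q172.KT.Def

/-!
# Cutting along the arc
-/

set_option autoImplicit false

open Set Topology Filter

namespace Pool.Agent.Q172.KT

theorem lc_sub {E : Type} [MetricSpace E] [LocallyConnectedSpace E] {K L : Set E} (hK : IsOpen K)
    (hLK : L ⊆ K) (ρ : E → E) (hρ : ContinuousOn ρ K) (hρL : ∀ x ∈ K, ρ x ∈ L)
    (hid : ∀ x ∈ L, ρ x = x) : LocallyConnectedSpace L := by
  have hKlc : LocallyConnectedSpace K := hK.locallyConnectedSpace
  rw [locallyConnectedSpace_iff_connected_subsets]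
  intro x U hU
  let ρ' : K → L := fun y => ⟨ρ y, hρL y y.2⟩
  have hρ' : Continuous ρ' := Continuous.subtype_mk (continuousOn_iff_continuous_restrict.1 hρ) _
  let ι : L → K := fun y => ⟨y, hLK y.2⟩
  have hι : Continuous ι := Continuous.subtype_mk continuous_subtype_val _
  have hρι : ∀ y, ρ' (ι y) = y := fun y => Subtype.ext (hid y y.2)
  have h1 : ρ' ⁻¹' U ∈ 𝓝 (ι x) := hρ'.continuousAt.preimage_mem_nhds (by rw [hρι]; exact hU)
  obtain ⟨V, hV, hVc, hVU⟩ := locallyConnectedSpace_iff_connected_subsets.1 hKlc _ _ h1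
  refine ⟨ρ' '' V, ?_, hVc.image _ hρ'.continuousOn, ?_⟩
  · have h2 : ι ⁻¹' V ∈ 𝓝 x := hι.continuousAt.preimage_mem_nhds hV
    refine mem_of_superset h2 fun y hy => ⟨ι y, hy, hρι y⟩
  · rintro _ ⟨y, hy, rfl⟩
    exact hVU hy

theorem retract {E : Type} [MetricSpace E] [CompactSpace E] [LocallyConnectedSpace E] {K L : Set E}
    (hK : IsClopen K) (hKc : IsConnected K) (hLK : L ⊆ K) (ρ : E → E) (hρ : ContinuousOn ρ K)
    (hρL : ∀ x ∈ K, ρ x ∈ L) (hid : ∀ x ∈ L, ρ x = x) :
    IsCompact L ∧ IsConnected L ∧ LocallyConnectedSpace L := by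
  have him : ρ '' K = L := by
    ext x
    constructor
    · rintro ⟨y, hy, rfl⟩; exact hρL y hy
    · intro hx; exact ⟨x, hLK hx, hid x hx⟩
  refine ⟨?_, ?_, lc_sub hK.isOpen hLK ρ hρ hρL hid⟩
  · rw [← him]
    exact hK.isClosed.isCompact.image_of_continuousOn hρ
  · rw [← him]
    exact hKc.image _ hρ

section

variable {E : Type} [MetricSpace E] {K : Set E} {α : ℝ → E} {π : E → ℝ}

theorem closed_le (h : Comb K α π) (t : ℝ) : IsClosed {x ∈ K | π x ≤ t} :=
  h.cπ.preimage_isClosed_of_isClosed h.clopen.isClosed isClosed_Iic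

theorem closed_ge (h : Comb K α π) (t : ℝ) : IsClosed {x ∈ K | t ≤ π x} :=
  h.cπ.preimage_isClosed_of_isClosed h.clopen.isClosed isClosed_Ici

theorem closed_lt' (h : Comb K α π) {t : ℝ} (ht : t ∈ Icc (0 : ℝ) 1) :
    IsClosed {x ∈ K | t < π x ∨ x = α t} := by
  have h1 : {x ∈ K | t < π x ∨ x = α t} =
      {x ∈ K | t ≤ π x} \ {x ∈ K | π x = t ∧ x ≠ α t} := by
    ext x
    constructor
    · rintro ⟨hx, h2 | h2⟩
      · exact ⟨⟨hx, h2.le⟩, fun h3 => absurd h3.2.1 (ne_of_gt h2)⟩
      · refine ⟨⟨hx, ?_⟩, fun h3 => h3.2.2 h2⟩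
        rw [h2, h.pα t ht]
    · rintro ⟨⟨hx, h2⟩, h3⟩
      refine ⟨hx, ?_⟩
      by_contra hcon
      push Not at hcon
      exact h3 ⟨hx, le_antisymm hcon.1 h2, hcon.2⟩
  rw [h1]
  exact (closed_ge h t).sdiff (h.hang t ht)

theorem closed_gt' (h : Comb K α π) {t : ℝ} (ht : t ∈ Icc (0 : ℝ) 1) :
    IsClosed {x ∈ K | π x < t ∨ x = α t} := by
  have h1 : {x ∈ K | π x < t ∨ x = α t} =
      {x ∈ K | π x ≤ t} \ {x ∈ K | π x = t ∧ x ≠ α t} := by
    ext x
    constructor
    · rintro ⟨hx, h2 | h2⟩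
      · exact ⟨⟨hx, h2.le⟩, fun h3 => absurd h3.2.1 (ne_of_lt h2)⟩
      · refine ⟨⟨hx, ?_⟩, fun h3 => h3.2.2 h2⟩
        rw [h2, h.pα t ht]
    · rintro ⟨⟨hx, h2⟩, h3⟩
      refine ⟨hx, ?_⟩
      by_contra hcon
      push Not at hcon
      exact h3 ⟨hx, le_antisymm h2 hcon.1, hcon.2⟩
  rw [h1]
  exact (closed_le h t).sdiff (h.hang t ht)

end

/-- Cutting along the arc. -/
theorem partsS : S_parts := by
  intro E _ _ _ K α π h
  refine ⟨?_, ?_, ?_, ?_⟩
  · intro t ht ε hε
    set Q : Set E := ({x ∈ K | π x ≤ t} ∪ {x ∈ K | t ≤ π x}) \ {x ∈ K | π x = t ∧ x ≠ α t} ∩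
      {x | ε ≤ dist x (α t)} with hQ
    have hQc : IsCompact Q := by
      refine IsClosed.isCompact ?_
      exact (((closed_le h t).union (closed_ge h t)).sdiff (h.hang t ht)).inter
        (isClosed_le continuous_const (continuous_id.dist continuous_const))
    have hQK : Q ⊆ K := by
      rintro x ⟨⟨hx | hx, -⟩, -⟩
      · exact hx.1
      · exact hx.1
    have hpos : ∀ x ∈ Q, 0 < |π x - t| := by
      intro x hx
      rw [abs_pos, sub_ne_zero]
      intro h1
      have h2 : x ≠ α t := by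
        rintro rfl
        have := hx.2
        rw [mem_setOf_eq, dist_self] at this
        linarith
      exact hx.1.2 ⟨hQK hx, h1, h2⟩
    have hin : ∀ x ∈ K, π x ≠ t → ε ≤ dist x (α t) → x ∈ Q := by
      intro x hx h1 h2
      refine ⟨⟨?_, fun h3 => h1 h3.2.1⟩, h2⟩
      rcases le_total (π x) t with h3 | h3
      · exact Or.inl ⟨hx, h3⟩
      · exact Or.inr ⟨hx, h3⟩
    by_cases hne : Q.Nonempty
    · obtain ⟨x₀, hx₀, hmin⟩ := hQc.exists_isMinOn hne
        (f := fun x => |π x - t|) ((h.cπ.mono hQK).sub continuousOn_const).abs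
      refine ⟨|π x₀ - t|, hpos x₀ hx₀, fun x hx h1 h2 => ?_⟩
      by_contra hcon
      exact absurd (hmin (hin x hx h1 (not_lt.1 hcon))) (not_le.2 h2)
    · refine ⟨1, one_pos, fun x hx h1 _ => ?_⟩
      by_contra hcon
      exact hne ⟨x, hin x hx h1 (not_lt.1 hcon)⟩
  · intro t ht
    classical
    refine retract h.clopen h.conn (fun x hx => hx.1) (fun x => if π x ≤ t then x else α t) ?_ ?_ ?_
    · have h1 : K ⊆ {x ∈ K | π x ≤ t} ∪ {x ∈ K | t < π x ∨ x = α t} := by
        intro x hx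
        rcases le_or_gt (π x) t with h2 | h2
        · exact Or.inl ⟨hx, h2⟩
        · exact Or.inr ⟨hx, Or.inl h2⟩
      refine ContinuousOn.mono ?_ h1
      refine ContinuousOn.union_of_isClosed ?_ ?_ (closed_le h t) (closed_lt' h ht)
      · exact continuousOn_id.congr fun x hx => by simp only [id]; rw [if_pos hx.2]
      · refine (continuousOn_const (c := α t)).congr fun x hx => ?_
        rcases hx.2 with h2 | h2
        · simp only; rw [if_neg (not_le.2 h2)]
        · subst h2; simp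
    · intro x hx
      by_cases h2 : π x ≤ t
      · simp only [if_pos h2]; exact ⟨hx, h2⟩
      · simp only [if_neg h2]; exact ⟨h.mem t ht, (h.pα t ht).le⟩
    · intro x hx
      simp only [if_pos hx.2]
  · intro t ht
    classical
    refine retract h.clopen h.conn (fun x hx => hx.1) (fun x => if t ≤ π x then x else α t) ?_ ?_ ?_
    · have h1 : K ⊆ {x ∈ K | t ≤ π x} ∪ {x ∈ K | π x < t ∨ x = α t} := by
        intro x hx
        rcases le_or_gt t (π x) with h2 | h2
        · exact Or.inl ⟨hx, h2⟩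
        · exact Or.inr ⟨hx, Or.inl h2⟩
      refine ContinuousOn.mono ?_ h1
      refine ContinuousOn.union_of_isClosed ?_ ?_ (closed_ge h t) (closed_gt' h ht)
      · exact continuousOn_id.congr fun x hx => by simp only [id]; rw [if_pos hx.2]
      · refine (continuousOn_const (c := α t)).congr fun x hx => ?_
        rcases hx.2 with h2 | h2
        · simp only; rw [if_neg (not_le.2 h2)]
        · subst h2; simp
    · intro x hx
      by_cases h2 : t ≤ π x
      · simp only [if_pos h2]; exact ⟨hx, h2⟩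
      · simp only [if_neg h2]; exact ⟨h.mem t ht, (h.pα t ht).ge⟩
    · intro x hx
      simp only [if_pos hx.2]
  · intro t ht t' ht' htt
    classical
    have hαt : π (α t) = t := h.pα t ht
    have hαt' : π (α t') = t' := h.pα t' ht'
    have hL : {x ∈ K | (t < π x ∧ π x ≤ t') ∨ x = α t} =
        {x ∈ K | t < π x ∨ x = α t} ∩ {x ∈ K | π x ≤ t'} := by
      ext x
      constructor
      · rintro ⟨hx, h2 | h2⟩
        · exact ⟨⟨hx, Or.inl h2.1⟩, hx, h2.2⟩
        · refine ⟨⟨hx, Or.inr h2⟩, hx, ?_⟩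
          rw [h2, hαt]; exact htt.le
      · rintro ⟨⟨hx, h2 | h2⟩, -, h3⟩
        · exact ⟨hx, Or.inl ⟨h2, h3⟩⟩
        · exact ⟨hx, Or.inr h2⟩
    refine retract h.clopen h.conn (fun x hx => hx.1)
      (fun x => if π x ≤ t then α t else if π x ≤ t' then x else α t') ?_ ?_ ?_
    · have h1 : K ⊆ {x ∈ K | π x ≤ t} ∪ ({x ∈ K | (t < π x ∧ π x ≤ t') ∨ x = α t} ∪
          {x ∈ K | t' < π x ∨ x = α t'}) := by
        intro x hx
        rcases le_or_gt (π x) t with h2 | h2
        · exact Or.inl ⟨hx, h2⟩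
        · rcases le_or_gt (π x) t' with h3 | h3
          · exact Or.inr (Or.inl ⟨hx, Or.inl ⟨h2, h3⟩⟩)
          · exact Or.inr (Or.inr ⟨hx, Or.inl h3⟩)
      have hLc : IsClosed {x ∈ K | (t < π x ∧ π x ≤ t') ∨ x = α t} := by
        rw [hL]; exact (closed_lt' h ht).inter (closed_le h t')
      refine ContinuousOn.mono ?_ h1
      refine ContinuousOn.union_of_isClosed ?_ (ContinuousOn.union_of_isClosed ?_ ?_ hLc
        (closed_lt' h ht')) (closed_le h t) (hLc.union (closed_lt' h ht'))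
      · exact (continuousOn_const (c := α t)).congr fun x hx => by simp only; rw [if_pos hx.2]
      · refine continuousOn_id.congr fun x hx => ?_
        rcases hx.2 with h2 | h2
        · simp only [id]; rw [if_neg (not_le.2 h2.1), if_pos h2.2]
        · subst h2; simp only [id]; rw [if_pos hαt.le]
      · refine (continuousOn_const (c := α t')).congr fun x hx => ?_
        rcases hx.2 with h2 | h2
        · simp only; rw [if_neg (not_le.2 (htt.trans h2)), if_neg (not_le.2 h2)]
        · subst h2; simp only; rw [if_neg (by rw [hαt']; exact not_le.2 htt), if_pos hαt'.le]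
    · intro x hx
      by_cases h2 : π x ≤ t
      · simp only [if_pos h2]; exact ⟨h.mem t ht, Or.inr rfl⟩
      · by_cases h3 : π x ≤ t'
        · simp only [if_neg h2, if_pos h3]; exact ⟨hx, Or.inl ⟨not_le.1 h2, h3⟩⟩
        · simp only [if_neg h2, if_neg h3]
          exact ⟨h.mem t' ht', Or.inl ⟨by rw [hαt']; exact htt, hαt'.le⟩⟩
    · intro x hx
      rcases hx.2 with h2 | h2
      · simp only [if_neg (not_le.2 h2.1), if_pos h2.2]
      · subst h2; simp only [if_pos hαt.le]

end Pool.Agent.Q172.KT
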