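import Pool.Agent.Q172.KT.Def

/-!
# Selection of the cutting points
-/

set_option autoImplicit false

open Set Topology Filter

namespace Pool.Agent.Q172.KT

/-- Selection of the cutting points. -/
theorem selectS : S_select := by
  intro E Z _ _ _ f α hf hα hpart
  choose m₀ hm₀ hm₁ using hpart
  -- the sets `S n`
  let S : ℕ → Set ℝ := fun n => {t ∈ Icc (0 : ℝ) 1 | 1 / ((n : ℝ) + 1) ≤ dist (m₀ (α t)) (α t)}
  have hS : (⋃ n, S n) = Icc 0 1 := by
    ext t
    rw [mem_iUnion]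
    constructor
    · rintro ⟨n, hn⟩; exact hn.1
    · intro ht
      obtain ⟨n, hn⟩ := exists_nat_one_div_lt (dist_pos.2 (hm₀ (α t)))
      exact ⟨n, ht, hn.le⟩
  have hinf : ∃ n, (S n).Infinite := by
    by_contra hcon
    push Not at hcon
    have h1 : (⋃ n, S n).Countable := countable_iUnion fun n =>
      (hcon n).countable
    rw [hS] at h1
    exact (Cardinal.Real.Icc_countable_iff.not.2 (by norm_num)) h1
  obtain ⟨n, hn⟩ := hinf
  obtain ⟨T, hT, hacc⟩ := hn.exists_accPt_of_subset_isCompact isCompact_Icc fun t ht => ht.1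
  have hcl : T ∈ closure (S n \ {T}) := by
    rw [accPt_principal_iff_clusterPt] at hacc
    exact mem_closure_iff_clusterPt.2 hacc
  have hsplit : S n \ {T} = (S n ∩ Iio T) ∪ (S n ∩ Ioi T) := by
    ext t
    constructor
    · rintro ⟨h1, h2⟩
      rcases lt_or_gt_of_ne h2 with h | h
      · exact Or.inl ⟨h1, h⟩
      · exact Or.inr ⟨h1, h⟩
    · rintro (⟨h1, h2⟩ | ⟨h1, h2⟩)
      · exact ⟨h1, ne_of_lt h2⟩
      · exact ⟨h1, ne_of_gt h2⟩
  have hseq : ∃ t : ℕ → ℝ, (StrictMono t ∨ StrictAnti t) ∧ Tendsto t atTop (𝓝 T) ∧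
      ∀ j, t j ∈ S n := by
    rw [hsplit, closure_union] at hcl
    rcases hcl with hcl | hcl
    · have hlub : IsLUB (S n ∩ Iio T) T :=
        isLUB_of_mem_closure (fun x hx => le_of_lt hx.2) hcl
      obtain ⟨t, h1, h2, h3, h4⟩ := hlub.exists_seq_strictMono_tendsto_of_notMem
        (fun h => lt_irrefl T h.2) (closure_nonempty_iff.1 ⟨T, hcl⟩)
      exact ⟨t, Or.inl h1, h3, fun j => (h4 j).1⟩
    · have hglb : IsGLB (S n ∩ Ioi T) T :=
        isGLB_of_mem_closure (fun x hx => le_of_lt hx.2) hcl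
      obtain ⟨t, h1, h2, h3, h4⟩ := hglb.exists_seq_strictAnti_tendsto_of_notMem
        (fun h => lt_irrefl T h.2) (closure_nonempty_iff.1 ⟨T, hcl⟩)
      exact ⟨t, Or.inr h1, h3, fun j => (h4 j).1⟩
  obtain ⟨t, hmono, htT, htS⟩ := hseq
  obtain ⟨u, -, φ, hφ, hu⟩ := (isCompact_univ (X := E)).tendsto_subseq
    (fun j => mem_univ (m₀ (α (t j))))
  have htφ : Tendsto (fun j => t (φ j)) atTop (𝓝 T) := htT.comp hφ.tendsto_atTop
  refine ⟨fun j => t (φ j), T, fun j => m₀ (α (t (φ j))), u, fun j => (htS _).1, hT, ?_, htφ,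
    fun j => hm₁ _, hu, ?_⟩
  · rcases hmono with h | h
    · exact Or.inl (h.comp hφ)
    · exact Or.inr (h.comp_strictMono hφ)
  · intro hcon
    have h1 : Tendsto (fun j => α (t (φ j))) atTop (𝓝 (α T)) := by
      have h2 : Tendsto (fun j => t (φ j)) atTop (𝓝[Icc 0 1] T) :=
        tendsto_nhdsWithin_iff.2 ⟨htφ, Eventually.of_forall fun j => (htS _).1⟩
      exact (hα T hT).tendsto.comp h2
    have h3 : Tendsto (fun j => dist (m₀ (α (t (φ j)))) (α (t (φ j)))) atTop (𝓝 (dist u (α T))) :=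
      Tendsto.dist hu h1
    have h4 : 1 / ((n : ℝ) + 1) ≤ dist u (α T) :=
      ge_of_tendsto h3 (Eventually.of_forall fun j => (htS _).2)
    rw [hcon, dist_self] at h4
    have h5 : 0 < 1 / ((n : ℝ) + 1) := by positivity
    linarith

end Pool.Agent.Q172.KT
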